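import Mathlib

set_option autoImplicit false

namespace Pool.Agent.Results.MP_f02465_al.IndexBound

/-- The free group on `a, b`. -/
abbrev F := FreeGroup (Fin 2)

/-- The alphabet `Ξ = {a, b, a⁻¹, b⁻¹}`: `(i, true)` is the `i`-th generator and `(i, false)`
is its inverse. -/
abbrev Xi := Fin 2 × Bool

/-- The group element named by a letter. -/
def letter (x : Xi) : F := if x.2 then FreeGroup.of x.1 else (FreeGroup.of x.1)⁻¹

/-- Edges of the coset graph: one edge `(rH, h)` from `rH` to `hrH` for each coset `rH` and each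
letter `h`. -/
abbrev Edge (H : Subgroup F) := (F ⧸ H) × Xi

/-- The end point `hrH` of the edge `(rH, h)` (its starting point is `rH`). -/
def head {H : Subgroup F} (e : Edge H) : F ⧸ H := letter e.2 • e.1

/-- The sets `E_i` (`i ≥ 1`) of edges highlighted at step `i`; `E_0` is not used. -/
def E (H : Subgroup F) (y : F) : ℕ → Set (Edge H)
  | 0 => ∅
  | 1 => {e | e.1 = (y : F ⧸ H)}
  | i + 2 => {e | (∃ f ∈ E H y (i + 1), head f = e.1) ∧
      ¬ ∃ f ∈ E H y (i + 1), f.1 = head e ∧ head f = e.1}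

variable {H : Subgroup F} (y : F)

def rev (e : Edge H) : Edge H := (head e, (e.2.1, !e.2.2))

lemma head_rev (e : Edge H) : head (rev e) = e.1 := by
  obtain ⟨v, i, _ | _⟩ := e <;> simp [head, rev, letter]

lemma rev_rev (e : Edge H) : rev (rev e) = e := by
  have := head_rev e
  obtain ⟨v, i, b⟩ := e
  simp only [rev, Bool.not_not] at this ⊢
  rw [this]

def U (H : Subgroup F) (y : F) : ℕ → Set (F ⧸ H)
  | 0 => ∅
  | 1 => ∅
  | 2 => {(y : F ⧸ H)}
  | i + 3 => head '' {e | e.1 ∈ U H y (i + 2)}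

lemma U_head (i : ℕ) (e : Edge H) (h : e.1 ∈ U H y i) : head e ∈ U H y (i + 1) := by
  match i, h with
  | 0, h => exact h.elim
  | 1, h => exact h.elim
  | i + 2, h => exact ⟨e, h, rfl⟩

lemma U_mono (i : ℕ) : U H y i ⊆ U H y (i + 2) := by
  match i with
  | 0 => exact Set.empty_subset _
  | 1 => exact Set.empty_subset _
  | i + 2 =>
    intro v hv
    have := U_head y (i + 3) (rev (v, (0, true))) (U_head y (i + 2) (v, (0, true)) hv)
    rwa [head_rev] at this

/-- layer `i` of the breadth first search in the bipartite double cover -/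
def M (H : Subgroup F) (y : F) (i : ℕ) : Set (F ⧸ H) := U H y (i + 2) \ U H y i

lemma split (i : ℕ) (e : Edge H) (h : e.1 ∈ M H y (i + 1)) :
    head e ∈ M H y (i + 2) ↔ head e ∉ M H y i := by
  refine ⟨fun h1 h2 => h1.2 h2.1, fun h1 => ⟨U_head y _ e h.1, fun h2 => h1 ⟨h2, fun h3 => h.2 ?_⟩⟩⟩
  have := U_head y i (rev e) h3
  rwa [head_rev] at this

lemma E_eq (i : ℕ) : E H y (i + 1) = {e | e.1 ∈ M H y i ∧ head e ∈ M H y (i + 1)} := by
  induction i with
  | zero =>
    ext e
    exact ⟨fun h => ⟨⟨h, id⟩, U_head y 2 e h, id⟩, fun h => h.1.1⟩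
  | succ i ih =>
    ext e
    simp only [E, ih, Set.mem_ofPred_eq]
    constructor
    · rintro ⟨⟨f, hf, h1⟩, h2⟩
      have h3 : e.1 ∈ M H y (i + 1) := h1 ▸ hf.2
      exact ⟨h3, (split y i e h3).mpr fun h4 =>
        h2 ⟨rev e, ⟨h4, by rwa [head_rev]⟩, rfl, head_rev e⟩⟩
    · rintro ⟨h1, h2⟩
      refine ⟨?_, fun ⟨f, hf, h3, _⟩ => (split y i e h1).mp h2 (h3 ▸ hf.1)⟩
      obtain ⟨f, hf, h3⟩ := h1.1
      exact ⟨f, ⟨⟨hf, fun h4 => h1.2 (h3 ▸ U_head y i f h4)⟩, h3 ▸ h1⟩, h3⟩

lemma card_fib (S : Set (F ⧸ H)) : {e : Edge H | e.1 ∈ S}.ncard = 4 * S.ncard := by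
  have : {e : Edge H | e.1 ∈ S} = S ×ˢ Set.univ := by ext e; simp
  rw [this, Set.ncard_prod, Set.ncard_univ, mul_comm]
  simp

variable [H.FiniteIndex]

lemma count (i : ℕ) :
    (E H y (i + 1)).ncard + (E H y (i + 2)).ncard = 4 * (M H y (i + 1)).ncard := by
  have hr : Function.Injective (rev (H := H)) := Function.LeftInverse.injective rev_rev
  rw [← card_fib, ← Set.ncard_image_of_injective (E H y (i + 1)) hr, ← Set.ncard_union_eq]
  · congr 1
    ext e
    rw [E_eq, E_eq]
    constructor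
    · rintro (⟨f, hf, rfl⟩ | h)
      exacts [hf.2, h.1]
    · intro h
      by_cases h1 : head e ∈ M H y i
      · exact Or.inl ⟨rev e, ⟨h1, by rwa [head_rev]⟩, rev_rev e⟩
      · exact Or.inr ⟨h, (split y i e h).mpr h1⟩
  · rw [Set.disjoint_left, E_eq, E_eq]
    rintro _ ⟨f, hf, rfl⟩ h
    exact (split y i _ h.1).mp h.2 (by rw [head_rev]; exact hf.1)

lemma dvd (i : ℕ) : 4 ∣ (E H y (i + 1)).ncard := by
  induction i with
  | zero => exact ⟨_, card_fib {(y : F ⧸ H)}⟩
  | succ i ih =>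
    have := count (H := H) y i
    change 4 ∣ (E H y (i + 2)).ncard
    omega

lemma U_card (i : ℕ) : (U H y (i + 2)).ncard = (U H y i).ncard + (M H y i).ncard := by
  rw [M, add_comm (U H y i).ncard, Set.ncard_sdiff_add_ncard_of_subset (U_mono y i)]

lemma bound (i : ℕ) (h : (E H y (i + 1)).Nonempty) :
    2 * i + 1 ≤ (U H y (i + 1)).ncard + (U H y (i + 2)).ncard := by
  induction i with
  | zero => simp [U]
  | succ i ih =>
    have h1 : (E H y (i + 1)).Nonempty := by
      obtain ⟨e, ⟨f, hf, -⟩, -⟩ := h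
      exact ⟨f, hf⟩
    have h2 := ih h1
    have h3 := count (H := H) y i
    have h4 := Nat.le_of_dvd ((Set.ncard_pos (Set.toFinite _)).mpr h1) (dvd y i)
    have h5 := Nat.le_of_dvd ((Set.ncard_pos (Set.toFinite _)).mpr h) (dvd y (i + 1))
    have h6 := U_card (H := H) y (i + 1)
    simp only [add_assoc, Nat.reduceAdd] at *
    omega

/-- The algorithm ends within `[F₂ : H]` steps, for every finite-index subgroup `H`. -/
theorem result (H : Subgroup F) [H.FiniteIndex] (y : F) (i : ℕ) (hi : H.index < i) :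
    E H y i = ∅ := by
  obtain ⟨i, rfl⟩ : ∃ j, i = j + 1 := ⟨i - 1, by omega⟩
  by_contra h
  have h0 := Set.nonempty_iff_ne_empty.mpr h
  have h1 := bound y i h0
  have h2 := U_card (H := H) y (i + 1)
  have h3 : 0 < (M H y (i + 1)).ncard := by
    obtain ⟨e, he⟩ := h0
    rw [E_eq] at he
    exact (Set.ncard_pos (Set.toFinite _)).mpr ⟨_, he.2⟩
  have h4 : ∀ S : Set (F ⧸ H), S.ncard ≤ H.index := fun S => by
    rw [Subgroup.index, ← Set.ncard_univ]
    exact Set.ncard_le_ncard (Set.subset_univ S)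
  have h5 := h4 (U H y (i + 2))
  have h6 := h4 (U H y (i + 1 + 2))
  omega

end Pool.Agent.Results.MP_f02465_al.IndexBound
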